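import Pool.Agent.H243R3.PCP.Gap
import Pool.Agent.NPC.Dec
import Pool.Agent.Q10.DG.Comp
import Pool.Agent.Q10.DG.PolyR

/-!
# Dense Graph Partition has no polynomial-time approximation scheme, unless P = NP

The proof is a reduction from the gap version of 3-satisfiability with a bounded number of
occurrences of each variable (the PCP theorem, `Pool.Agent.NPC.DP.gap3Sat`) to graphs with `18 m`
vertices, `m` being the number of clauses, which can be partitioned into triangles exactly if the
formula is satisfiable.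
-/

namespace Pool.Agent.Results.MP_0b8c1e_lc.NoPTAS

open Pool.Agent.NPC Pool.Agent.Q10.DG

/-- The function `A` is computed in polynomial time (on binary encodings, by a Turing machine). -/
def PolyTimeFun {α β : Type} [TEnc α] [TEnc β] (A : α → β) : Prop :=
  ∃ F : List Bool → List Bool, PolyTime F ∧ ∀ a, F (bits a) = bits (A a)

theorem poly_of_polyTimeFun {α γ : Type} [TEnc α] [TEnc γ] {A : α → γ} (h : PolyTimeFun A) :
    NPC.Poly A := by
  obtain ⟨F, hF, hFA⟩ := h
  obtain ⟨c, p, hc⟩ := H642R2.TMSim.polyTime_toPC hF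
  refine ⟨c, p, fun a => ?_⟩
  have := hc (bits a)
  rw [hFA a] at this
  exact this

/-- The constants of the PCP theorem are positive. -/
theorem consts_pos : 1 ≤ H243R3.PCP.Bd ∧ 1 ≤ NPC.DP.K0 := by
  constructor
  · unfold H243R3.PCP.Bd; norm_num
  · unfold NPC.DP.K0 H243R3.PCP.c1; norm_num

/-- The bound on the density of a partition given by labels. -/
theorem sound_labels {φ : List H243R3.TP.Clause}
    (hocc : ∀ v, (H243R3.TP.occ φ).count v ≤ H243R3.PCP.Bd) (l : List ℕ) :
    density (inst φ) (ofLabels (inst φ) l) ≤ 6 * (φ.length : ℝ) -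
      ((φ.length : ℝ) - H243R3.TP.numSat φ (asg φ (NPC.DG10.lab l))) /
        (2352 * H243R3.PCP.Bd) :=
  sound (ofLabels (inst φ) l) (fun _ hs => NPC.DG10.lab_spec l hs) consts_pos.1 hocc

/-- The bound on the density of a partition. -/
theorem sound_all {φ : List H243R3.TP.Clause}
    (hocc : ∀ v, (H243R3.TP.occ φ).count v ≤ H243R3.PCP.Bd)
    (P : Finpartition (verts (inst φ))) :
    ∃ A : List ℕ, density (inst φ) P ≤ 6 * (φ.length : ℝ) -
      ((φ.length : ℝ) - H243R3.TP.numSat φ A) / (2352 * H243R3.PCP.Bd) := by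
  classical
  exact ⟨_, sound (S := fun s => decide (X s + 2 ∈ P.part (X s + 1))) P
    (fun _ _ => decide_eq_true_iff) consts_pos.1 hocc⟩

/-- **Theorem.** There is `ε > 0` with the following two properties.
(i) Every language in `NP` reduces in polynomial time to graphs such that the maximum density of a
partition of the graph with `n` vertices is `n / 3` for the words of the language, and at most
`(1 - ε) n / 3` for the other words.
(ii) If a polynomial-time algorithm finds, for every graph, a partition of density at least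
`1 - ε` times the maximum density, then every language in `NP` is in `P`. -/
theorem result : ∃ ε : ℝ, 0 < ε ∧
    (∀ L : Set (List Bool), InNP L → ∃ f : List Bool → Inst, PolyTime (fun x => bits (f x)) ∧
      ∀ x, 0 < (f x).1.length ∧
        (∀ P : Finpartition (verts (f x)), density (f x) P ≤ ((f x).1.length : ℝ) / 3) ∧
        (x ∈ L → ∃ P : Finpartition (verts (f x)),
          density (f x) P = ((f x).1.length : ℝ) / 3) ∧
        (x ∉ L → ∀ P : Finpartition (verts (f x)),
          density (f x) P ≤ (1 - ε) * (((f x).1.length : ℝ) / 3))) ∧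
    ∀ alg : Inst → List ℕ, PolyTimeFun alg →
      (∀ (I : Inst) (P : Finpartition (verts I)),
        (1 - ε) * density I P ≤ density I (ofLabels I (alg I))) →
      ∀ L : Set (List Bool), InNP L → InP L := by
  obtain ⟨hBd, hK0⟩ := consts_pos
  obtain ⟨B, hB⟩ : ∃ B : ℝ, B = (H243R3.PCP.Bd : ℝ) := ⟨_, rfl⟩
  obtain ⟨K, hK⟩ : ∃ K : ℝ, K = (NPC.DP.K0 : ℝ) := ⟨_, rfl⟩
  have hB1 : 1 ≤ B := by rw [hB]; exact_mod_cast hBd
  have hK1 : 1 ≤ K := by rw [hK]; exact_mod_cast hK0
  have hB0 : 0 < B := by linarith
  have hK0' : 0 < K := by linarith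
  have hlen : ∀ φ : List H243R3.TP.Clause, (((inst φ).1.length : ℕ) : ℝ) / 3 =
      6 * (φ.length : ℝ) := by
    intro φ
    simp only [inst, List.length_replicate]
    push_cast
    ring
  have hns : ∀ (φ : List H243R3.TP.Clause) (A : List ℕ),
      (H243R3.TP.numSat φ A : ℝ) ≤ φ.length := by
    intro φ A
    exact_mod_cast List.countP_le_length
  refine ⟨1 / (28224 * B * K), by positivity, ?_, ?_⟩
  · intro L hL
    obtain ⟨f, hf, h⟩ := NPC.DP.gap3Sat hL
    refine ⟨fun x => inst (f x), ?_, fun x => ⟨?_, ?_, ?_, ?_⟩⟩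
    · exact NPC.PC.toPolyTime_bits (NPC.DG10.poly_inst NPC.Poly.id) f hf
    · have := List.length_pos_iff.2 (h x).1
      simp only [inst, List.length_replicate]
      omega
    · intro P
      obtain ⟨A, hA⟩ := sound_all (h x).2.1 P
      rw [hlen]
      have h1 := hns (f x) A
      have h2 : 0 ≤ ((f x).length - H243R3.TP.numSat (f x) A : ℝ) / (2352 * H243R3.PCP.Bd) :=
        div_nonneg (by linarith) (by positivity)
      linarith
    · intro hx
      obtain ⟨A, _, _, hA⟩ := (h x).2.2.1 hx
      obtain ⟨P, hP⟩ := complete hA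
      exact ⟨P, by rw [hlen]; exact hP⟩
    · intro hx P
      obtain ⟨A, hA⟩ := sound_all (h x).2.1 P
      rw [hlen]
      have h1 := (h x).2.2.2 hx A
      have h2 := hns (f x) A
      have h3 : ((f x).length : ℝ) ≤ K * ((f x).length - H243R3.TP.numSat (f x) A) := by
        rw [hK]
        have h4 : H243R3.TP.numSat (f x) A ≤ (f x).length := List.countP_le_length
        have h5 := h1
        zify [h4] at h5
        exact_mod_cast h5
      rw [← hB] at hA
      obtain ⟨m, hm⟩ : ∃ m : ℝ, m = ((f x).length : ℝ) := ⟨_, rfl⟩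
      obtain ⟨u, hu⟩ : ∃ u : ℝ, u = (f x).length - (H243R3.TP.numSat (f x) A : ℝ) := ⟨_, rfl⟩
      rw [← hu, ← hm] at h3
      rw [← hu] at hA
      rw [← hm] at hA ⊢
      refine hA.trans ?_
      have h6 : m / (2352 * B * K) ≤ u / (2352 * B) := by
        rw [div_le_div_iff₀ (by positivity) (by positivity)]
        nlinarith
      have hm0 : 0 ≤ m := by rw [hm]; positivity
      have h7 : 1 / (28224 * B * K) * (6 * m) ≤ m / (2352 * B * K) := by
        rw [one_div_mul_eq_div, div_le_div_iff₀ (by positivity) (by positivity)]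
        have : 0 ≤ m * (B * K) := by positivity
        nlinarith
      linarith
  · intro alg halg hopt L hL
    obtain ⟨f, hf, h⟩ := NPC.DP.gap3Sat hL
    have hg := NPC.DG10.poly_test NPC.DP.K0 (poly_of_polyTimeFun halg)
    refine ⟨_, NPC.PC.toPolyTime (NPC.PC.comp NPC.PC.rawBool (NPC.PC.comp hg hf)), fun x => ?_⟩
    have hs := sound_labels (h x).2.1 (alg (inst (f x)))
    obtain ⟨A, hA⟩ : ∃ A, A = asg (f x) (NPC.DG10.lab (alg (inst (f x)))) := ⟨_, rfl⟩
    rw [← hA] at hs ⊢
    simp only [List.cons.injEq, and_true, decide_eq_true_eq]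
    constructor
    · intro hx
      obtain ⟨A', _, _, hA'⟩ := (h x).2.2.1 hx
      obtain ⟨P, hP⟩ := complete hA'
      have h1 := hopt (inst (f x)) P
      rw [hP] at h1
      have h2 := h1.trans hs
      have h4 : H243R3.TP.numSat (f x) A ≤ (f x).length := List.countP_le_length
      have hpos : 0 < (f x).length := List.length_pos_iff.2 (h x).1
      rw [← hB] at h2
      have h5 : K * (((f x).length : ℝ) - H243R3.TP.numSat (f x) A) < (f x).length := by
        obtain ⟨m, hm⟩ : ∃ m : ℝ, m = ((f x).length : ℝ) := ⟨_, rfl⟩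
        obtain ⟨u, hu⟩ : ∃ u : ℝ, u = (f x).length - (H243R3.TP.numSat (f x) A : ℝ) := ⟨_, rfl⟩
        have hm0 : 0 < m := by rw [hm]; exact_mod_cast hpos
        rw [← hu] at h2 ⊢
        rw [← hm] at h2 ⊢
        have h6 : u / (2352 * B) ≤ 1 / (28224 * B * K) * (6 * m) := by linarith
        rw [one_div_mul_eq_div, div_le_div_iff₀ (by positivity) (by positivity)] at h6
        have h7 : B * (28224 * (K * u)) ≤ B * (14112 * m) := by nlinarith
        have h8 := le_of_mul_le_mul_left h7 hB0
        linarith
      rw [hK] at h5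
      have h9 : ((NPC.DP.K0 * ((f x).length - H243R3.TP.numSat (f x) A) : ℕ) : ℝ) <
          ((f x).length : ℕ) := by
        rw [Nat.cast_mul, Nat.cast_sub h4]
        exact h5
      exact_mod_cast h9
    · intro hlt
      by_contra hx
      have := (h x).2.2.2 hx A
      omega

end Pool.Agent.Results.MP_0b8c1e_lc.NoPTAS
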